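import Mathlib
import Pool.Agent.Lib.helper6.IntK

set_option autoImplicit false

namespace Pool.Agent.Results.MP_efce82_al.Counter

open Polynomial TensorProduct Algebra.TensorProduct Pool.Agent.Lib.helper6.IntK

variable (D A : Type) [CommRing D] [IsDomain D] [Ring A] [Algebra D A]

/-- `B = K ⊗_D A` -/
abbrev B := FractionRing D ⊗[D] A

/-- `A'`, the integral elements of `B` -/
def A' : Set (B D A) := {b | IsIntegral D b}

/-- `A` inside `B` -/
def A₀ : Set (B D A) := Set.range (includeRight : A →ₐ[D] B D A)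

/-- `{f ∈ K[X] : f(S) ⊆ T}` -/
def IntK (S T : Set (B D A)) : Set (FractionRing D)[X] := {f | ∀ b ∈ S, aeval b f ∈ T}

/-- `Ω_S` -/
def Ω (S : Set (B D A)) : Set (AlgebraicClosure (FractionRing D)) :=
  {α | ∃ b ∈ S, aeval α (minpoly (FractionRing D) b) = 0}

theorem result : ∃ (D A : Type) (_ : CommRing D) (_ : IsDomain D) (_ : IsIntegrallyClosed D)
    (_ : Ring A) (_ : Algebra D A), Function.Injective (algebraMap D A) ∧
    Module.IsTorsionFree D A ∧ Module.Finite D A ∧
    IntK D A (A₀ D A) (A' D A) = IntK D A (A' D A) (A' D A) ∧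
    ∃ α ∈ Ω D A (A' D A), α ∉ Ω D A (A₀ D A) := by
  refine ⟨ℚ[X], QuadraticAlgebra ℚ[X] (-X ^ 2) 0, inferInstance, inferInstance, inferInstance,
    inferInstance, inferInstance, FaithfulSMul.algebraMap_injective _ _, inferInstance,
    inferInstance, Set.Subset.antisymm (fun f h b hb => ?_) fun f h b hb => h b ?_, ?_⟩
  · obtain ⟨g, rfl⟩ := poly _ f fun d => val f d (h _ ⟨algebraMap _ _ d, AlgHom.commutes _ _⟩)
    rw [aeval_map_algebraMap]
    exact IsIntegral.of_mem_of_fg _ hb.fg_adjoin_singleton _ (aeval_mem_adjoin_singleton _ _)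
  · obtain ⟨a, rfl⟩ := hb
    exact (Algebra.IsIntegral.isIntegral a).map _
  obtain ⟨b, h1, h2, -⟩ := ex (FractionRing ℚ[X])
  obtain ⟨α, hα⟩ := IsAlgClosed.exists_aeval_eq_zero (AlgebraicClosure (FractionRing ℚ[X])) _
    (minpoly.degree_pos (h2.tower_top (A := FractionRing ℚ[X]))).ne'
  refine ⟨α, ⟨b, h2, hα⟩, ?_⟩
  rintro ⟨_, ⟨a, rfl⟩, h⟩
  have e1 := aeval_eq_zero_of_dvd_aeval_eq_zero
    (minpoly.dvd _ b (p := X ^ 2 + 1) (by simp [sq, h1])) hα
  have e2 := aeval_eq_zero_of_dvd_aeval_eq_zero (minpoly.dvd _ _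
    (p := ((X - C a.re) ^ 2 + C (X ^ 2 * a.im ^ 2)).map (algebraMap ℚ[X] _)) (by
      rw [aeval_map_algebraMap, aeval_algHom_apply, map_eq_zero_iff _
        (includeRight_injective (IsFractionRing.injective ℚ[X] _))]
      simp only [map_add, map_pow, map_sub, aeval_X, aeval_C]
      ext : 1 <;> simp [sq]; ring)) h
  rw [aeval_map_algebraMap] at e2
  simp only [map_add, map_pow, map_sub, aeval_X, aeval_C, map_one, map_mul] at e1 e2
  have : algebraMap ℚ[X] (AlgebraicClosure (FractionRing ℚ[X]))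
      ((a.re ^ 2 + X ^ 2 * a.im ^ 2 - 1) ^ 2 + 4 * a.re ^ 2) = 0 := by
    simp only [map_add, map_pow, map_sub, map_one, map_mul, map_ofNat]
    grind
  rw [IsScalarTower.algebraMap_apply _ (FractionRing ℚ[X]), map_eq_zero,
    map_eq_zero_iff _ (IsFractionRing.injective _ _)] at this
  have := congrArg (eval 0) this
  simp at this
  nlinarith [sq_nonneg (eval 0 a.re), sq_nonneg (eval 0 a.re ^ 2)]

end Pool.Agent.Results.MP_efce82_al.Counter
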